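import Pool.Agent.ZAR.Stmts

/-!
# KER: the ideal of a line is the kernel of the restriction to the line
-/

namespace Pool.Agent.ZAR.H86

open MvPowerSeries Pool.Agent.ZAR

variable {K : Type} [Field K] {n : ℕ}

theorem hs_evL (e : Fin n → K) :
    HasSubst (fun i => (C (e i) * X 0 : MvPowerSeries (Fin 1) K)) :=
  hasSubst_of_constantCoeff_zero fun i => by simp

theorem evL_X (e : Fin n → K) (j : Fin n) : evL e (X j) = C (e j) * X 0 := by
  unfold evL
  exact subst_X (hs_evL e) j

theorem evL_C (e : Fin n → K) (c : K) : evL e (C c) = C c := by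
  unfold evL
  rw [← coe_substAlgHom (hs_evL e)]
  exact AlgHom.commutes (substAlgHom (hs_evL e)) c

theorem evL_mul (e : Fin n → K) (f g : MvPowerSeries (Fin n) K) :
    evL e (f * g) = evL e f * evL e g := subst_mul (hs_evL e) f g

theorem evL_sub (e : Fin n → K) (f g : MvPowerSeries (Fin n) K) :
    evL e (f - g) = evL e f - evL e g := by
  unfold evL
  rw [← coe_substAlgHom (hs_evL e)]
  exact map_sub _ f g

theorem ker (hHAD : HADStmt) : KERStmt := by
  intro K _ n e he f
  constructor
  · intro hf
    have h1 : PL e ≤ RingHom.ker (substAlgHom (R := K) (hs_evL e)) := by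
      unfold PL
      rw [Ideal.span_le]
      rintro g ⟨i, j, rfl⟩
      rw [SetLike.mem_coe, RingHom.mem_ker, coe_substAlgHom]
      change evL e _ = 0
      rw [evL_sub, evL_mul, evL_mul, evL_C, evL_C, evL_X, evL_X]
      ring
    have h2 := h1 hf
    rw [RingHom.mem_ker, coe_substAlgHom] at h2
    exact h2
  · intro hf
    obtain ⟨i, hi⟩ : ∃ i, e i ≠ 0 := Function.ne_iff.1 he
    obtain ⟨q, hq⟩ := hHAD K (Fin n) f
    obtain ⟨b, hb⟩ : ∃ b : Fin n → MvPowerSeries (Fin n) K,
        b = fun j => C (e j * (e i)⁻¹) * X i := ⟨_, rfl⟩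
    have hb0 : ∀ j, constantCoeff (b j) = 0 := by
      intro j
      rw [hb]
      simp
    have h1 := (hq (Fin n) X b (fun j => constantCoeff_X j) hb0).1
    have h2 : subst (X : Fin n → MvPowerSeries (Fin n) K) f = f := by
      rw [subst_self]
      rfl
    have h3 : subst b f = 0 := by
      have hs : HasSubst (fun _ : Fin 1 => (C (e i)⁻¹ * X i : MvPowerSeries (Fin n) K)) :=
        hasSubst_of_constantCoeff_zero fun _ => by simp
      have h4 := subst_comp_subst_apply (hs_evL e) hs f
      have h5 : (fun s => subst (fun _ : Fin 1 => (C (e i)⁻¹ * X i : MvPowerSeries (Fin n) K))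
          (C (e s) * X 0 : MvPowerSeries (Fin 1) K)) = b := by
        funext s
        rw [subst_mul hs, subst_X hs, hb]
        have h6 : subst (fun _ : Fin 1 => (C (e i)⁻¹ * X i : MvPowerSeries (Fin n) K))
            (C (e s) : MvPowerSeries (Fin 1) K) = C (e s) := by
          rw [← coe_substAlgHom hs]
          exact AlgHom.commutes (substAlgHom hs) (e s)
        rw [h6]
        simp only [map_mul]
        ring
      rw [h5] at h4
      rw [← h4]
      change subst _ (evL e f) = 0
      rw [hf, ← coe_substAlgHom hs, map_zero]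
    rw [h2, h3, sub_zero] at h1
    rw [h1]
    refine Ideal.sum_mem _ fun j _ => Ideal.mul_mem_right _ _ ?_
    have h7 : (X j : MvPowerSeries (Fin n) K) - b j =
        C (e i)⁻¹ * (C (e i) * X j - C (e j) * X i) := by
      rw [hb, mul_sub, ← mul_assoc, ← map_mul, inv_mul_cancel₀ hi, map_one, one_mul]
      simp only [map_mul]
      ring
    rw [h7]
    exact Ideal.mul_mem_left _ _ (Ideal.subset_span ⟨i, j, rfl⟩)

end Pool.Agent.ZAR.H86
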